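import Pool.Agent.Helper5.SR.St4

set_option autoImplicit false

namespace Pool.Agent.Helper14.SR

open Complex MeasureTheory Set Metric Filter Topology
open scoped Real
open Pool.Agent.Helper60.Rel (LH tc Admissible ClassS)
open Pool.Agent.Helper51.LT
open Helper5.SR

private lemma LH_shift (ζ : ℂ) (hζ : ζ ∈ LH) (r : ℝ) : ζ + r * I ∈ LH := by
  have h1 : ζ.re < 0 := hζ
  change (ζ + r * I).re < 0
  simpa using h1

private lemma period_int {C : ℝ} {T : ℂ → ℂ} (hT : LC C T) (n : ℤ) :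
    ∀ ζ ∈ LH, T (ζ + 2 * π * n * I) = T ζ + 2 * π * n * I := by
  have hper := hT.2.2.1
  have hmem : ∀ ζ ∈ LH, ∀ m : ℤ, ζ + 2 * π * m * I ∈ LH := by
    intro ζ hζ m
    have := LH_shift ζ hζ (2 * π * m)
    push_cast at this
    exact this
  induction n using Int.induction_on with
  | zero => intro ζ _; simp
  | succ m ih =>
    intro ζ hζ
    have h1 := hper (ζ + 2 * π * (m : ℤ) * I) (hmem ζ hζ m)
    have e1 : ζ + 2 * π * (m : ℤ) * I + 2 * π * I = ζ + 2 * π * ((m : ℤ) + 1 : ℤ) * I := by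
      push_cast; ring
    rw [e1] at h1
    rw [h1, ih ζ hζ]
    push_cast; ring
  | pred m ih =>
    intro ζ hζ
    have h1 := hper (ζ + 2 * π * ((-(m : ℤ) - 1 : ℤ)) * I) (hmem ζ hζ _)
    have e1 : ζ + 2 * π * ((-(m : ℤ) - 1 : ℤ)) * I + 2 * π * I = ζ + 2 * π * ((-(m : ℤ) : ℤ)) * I := by
      push_cast; ring
    rw [e1, ih ζ hζ] at h1
    have h2 : T (ζ + 2 * π * ((-(m : ℤ) - 1 : ℤ)) * I) =
        T ζ + 2 * π * ((-(m : ℤ) : ℤ)) * I - 2 * π * I := by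
      rw [h1]; ring
    rw [h2]
    push_cast; ring

private lemma deriv_period {C : ℝ} {T : ℂ → ℂ} (hT : LC C T) (n : ℤ) (p : ℂ) (hp : p ∈ LH) :
    deriv T (p + 2 * π * n * I) = deriv T p := by
  have hopen : IsOpen LH := isOpen_lt Complex.continuous_re continuous_const
  have h1 : (fun ζ => T (ζ + 2 * π * n * I)) =ᶠ[𝓝 p] fun ζ => T ζ + 2 * π * n * I := by
    filter_upwards [hopen.mem_nhds hp] with ζ hζ
    exact period_int hT n ζ hζ
  have h2 := h1.deriv_eq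
  rw [deriv_comp_add_const, deriv_add_const] at h2
  exact h2

private lemma disc_point {C : ℝ} {T : ℂ → ℂ} (hT : LC C T) (M : ℕ) (hM : 1 ≤ M) (φ : ℂ → ℂ)
    (hφd : DifferentiableOn ℂ φ (ball 0 1))
    (hφ : ∀ ζ ∈ LH, φ (exp ζ) = exp (T (M * ζ) / M)) (θ₀ : ℝ) (n : ℤ)
    (hn : (M : ℝ) * θ₀ = 2 * π * n) (q σ : ℝ) (hq : 0 < q) (z p : ℂ)
    (hz : z = exp (-((q / M : ℝ) : ℂ) + ((θ₀ + σ / M : ℝ) : ℂ) * I))
    (hp : p = -((q : ℝ) : ℂ) + σ * I) :
    ‖z‖ < 1 ∧ φ z = exp (θ₀ * I) * exp (T p / M) ∧ deriv φ z * z = φ z * deriv T p := by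
  have hM0 : (0 : ℝ) < M := by exact_mod_cast hM
  have hM0' : (M : ℂ) ≠ 0 := by exact_mod_cast hM0.ne'
  set ζ : ℂ := -((q / M : ℝ) : ℂ) + ((θ₀ + σ / M : ℝ) : ℂ) * I with hζ
  have hre : ζ.re = -(q / M) := by
    rw [hζ, add_re, neg_re, ofReal_re, mul_re, ofReal_re, ofReal_im, I_re, I_im]
    ring
  have hζLH : ζ ∈ LH := by
    change ζ.re < 0
    rw [hre]
    have : 0 < q / M := by positivity
    linarith
  have hpLH : p ∈ LH := by
    change p.re < 0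
    rw [hp, add_re, neg_re, ofReal_re, mul_re, ofReal_re, ofReal_im, I_re, I_im]
    linarith
  have hznorm : ‖z‖ < 1 := by
    rw [hz, Complex.norm_exp, hre, Real.exp_lt_one_iff]
    have : 0 < q / M := by positivity
    linarith
  have hnC : (M : ℂ) * θ₀ = 2 * π * n := by exact_mod_cast hn
  have hMζ : (M : ℂ) * ζ = p + 2 * π * n * I := by
    rw [hζ, hp, ← hnC]
    push_cast
    field_simp
    ring
  have hTM : T (M * ζ) = T p + 2 * π * n * I := by rw [hMζ, period_int hT n p hpLH]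
  have hθ : (2 * π * n * I : ℂ) / M = θ₀ * I := by
    rw [← hnC]; field_simp
  have hφz : φ z = exp (T (M * ζ) / M) := by rw [hz]; exact hφ ζ hζLH
  refine ⟨hznorm, ?_, ?_⟩
  · rw [hφz, hTM, add_div, hθ, Complex.exp_add, mul_comm]
  · have hopen : IsOpen LH := isOpen_lt Complex.continuous_re continuous_const
    have h1 : HasDerivAt φ (deriv φ z) z :=
      (hφd.differentiableAt (isOpen_ball.mem_nhds (by simpa using hznorm))).hasDerivAt
    have h2 : HasDerivAt (fun y => φ (exp y)) (deriv φ z * exp ζ) ζ := by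
      rw [hz] at h1
      rw [hz]
      exact h1.comp ζ (Complex.hasDerivAt_exp ζ)
    have hMLH : (M : ℂ) * ζ ∈ LH := by
      rw [hMζ]
      have := LH_shift p hpLH (2 * π * n)
      push_cast at this
      exact this
    have h3 : HasDerivAt T (deriv T (M * ζ)) (M * ζ) :=
      (hT.1.differentiableAt (hopen.mem_nhds hMLH)).hasDerivAt
    have h4 : HasDerivAt (fun y => T (M * y)) (deriv T (M * ζ) * M) ζ := by
      have h5 : HasDerivAt (fun y : ℂ => (M : ℂ) * y) (M : ℂ) ζ := by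
        simpa using (hasDerivAt_id ζ).const_mul (M : ℂ)
      exact h3.comp ζ h5
    have h6 : HasDerivAt (fun y => exp (T (M * y) / M))
        (exp (T (M * ζ) / M) * (deriv T (M * ζ) * M / M)) ζ :=
      (h4.div_const (M : ℂ)).cexp
    have h7 : (fun y => φ (exp y)) =ᶠ[𝓝 ζ] fun y => exp (T (M * y) / M) := by
      filter_upwards [hopen.mem_nhds hζLH] with y hy
      exact hφ y hy
    have h8 := (h6.congr_of_eventuallyEq h7).unique h2
    rw [← hφz, hMζ, deriv_period hT n p hpLH, mul_div_assoc, div_self hM0', mul_one] at h8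
    rw [h8, hz]

private lemma one_sub_exp (y : ℝ) (h0 : 0 ≤ y) (h1 : y ≤ 1) : y / 2 ≤ 1 - Real.exp (-y) := by
  have h2 : Real.exp (-y) ≤ 1 / (1 + y) := by
    rw [Real.exp_neg, one_div]
    exact inv_anti₀ (by linarith) (by linarith [Real.add_one_le_exp y])
  have h3 : 1 / (1 + y) ≤ 1 - y / 2 := by
    rw [div_le_iff₀ (by linarith)]
    nlinarith
  linarith

/-- ZPT. -/
theorem hZpt (hTw1 : StTw1) (hTw3 : StTw3) (hHyp : StHyp) (hD2 : StD2) : StZpt := by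
  intro C hC
  obtain ⟨Q₁, C', hQ₁, hC', hT3⟩ := hTw3 C hC
  refine ⟨max Q₁ (max ⌈2 * C * C'⌉₊ ⌈2 * C⌉₊), le_trans hQ₁ (le_max_left _ _), ?_⟩
  intro κ β Q Φ hQ hTM M h θ₀ ξ₀ c₀ C₀ s hAtm hs0 hs1
  obtain ⟨hM, hBU, ⟨n, hn⟩, hξ, hc₀, hC₀, hnear, hSP⟩ := hAtm
  have hQQ₁ : Q₁ ≤ Q := le_trans (le_max_left _ _) hQ
  have hQC' : 2 * C * C' ≤ Q := le_trans (Nat.le_ceil _)
    (by exact_mod_cast le_trans (le_trans (le_max_left _ _) (le_max_right _ _)) hQ)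
  have hQC : 2 * C ≤ Q := le_trans (Nat.le_ceil _)
    (by exact_mod_cast le_trans (le_trans (le_max_right _ _) (le_max_right _ _)) hQ)
  have hQ2 : 2 ≤ Q := le_trans hQ₁ hQQ₁
  have hQ2r : (2 : ℝ) ≤ Q := by exact_mod_cast hQ2
  have hQ0 : (0 : ℝ) < Q := by linarith
  have hQ1 : (1 : ℝ) ≤ Q := by linarith
  have hM0 : (0 : ℝ) < M := by exact_mod_cast hM
  have hM1 : (1 : ℝ) ≤ M := by exact_mod_cast hM
  have hC0 : 0 < C := by linarith
  have hκ1 : 1 ≤ κ := hTM.2.1.1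
  have hκC : κ ≤ C := hTM.2.1.2.1
  have hκ0 : 0 < κ := by linarith
  have hlam0 : 0 < κ / Q := by positivity
  have hlam : κ / Q ≤ 1 / 2 := by
    rw [div_le_iff₀ hQ0]; linarith
  -- constants
  set Ch : ℝ := max (2 * C₀ * (C + 8)) 1 with hCh
  set ch : ℝ := min (c₀ / (4 * C * M)) 1 with hch
  have hChp : 0 < Ch := lt_of_lt_of_le one_pos (le_max_right _ _)
  have hchp : 0 < ch := lt_min (by positivity) one_pos
  obtain ⟨C₂, hC₂, hHyp'⟩ := hHyp Ch ch hChp hchp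
  obtain ⟨a₀, ha₀⟩ : ∃ a₀ : ℕ, (1 / 2 : ℝ) ^ a₀ < min c₀ (1 / 2) / (2 * (C + 8)) :=
    exists_pow_lt_of_lt_one (by positivity) (by norm_num)
  refine ⟨c₀ / (4 * C₂ * (Q : ℝ) ^ 4), ⌈((a₀ : ℝ) + 1) / s⌉₊ + 1, by positivity, ?_⟩
  intro k hk K φ hK hDsc τ hDeep him0 him2
  set a : ℕ := ⌊s * k⌋₊ with ha
  have hk1 : 1 ≤ k := by omega
  have hk1r : (1 : ℝ) ≤ k := by exact_mod_cast hk1
  have hsk0 : 0 ≤ s * k := by positivity
  have hask : (a : ℝ) ≤ s * k := Nat.floor_le hsk0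
  have hska : s * k < a + 1 := Nat.lt_floor_add_one _
  have hak : a ≤ k := by
    have : (a : ℝ) ≤ k := le_trans hask (mul_le_of_le_one_left (by positivity) hs1)
    exact_mod_cast this
  have haa₀ : a₀ ≤ a := by
    rw [ha]
    apply Nat.le_floor
    have h1 : ((a₀ : ℝ) + 1) / s ≤ k := by
      refine le_trans (Nat.le_ceil _) ?_
      have : ⌈((a₀ : ℝ) + 1) / s⌉₊ ≤ k := by omega
      exact_mod_cast this
    rw [div_le_iff₀ hs0] at h1
    linarith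
  set w : ℂ := TW Φ Q (k - a) (pt Q (k - a) τ) with hw
  set u : ℝ := (κ / Q) ^ a with hu
  have hu0 : 0 < u := pow_pos hlam0 a
  have hu1 : u ≤ 1 := pow_le_one₀ hlam0.le (by linarith)
  have husmall : 2 * u * (C + 8) ≤ min c₀ (1 / 2) := by
    have h1 : u ≤ (1 / 2 : ℝ) ^ a₀ := le_trans (pow_le_pow_left₀ hlam0.le hlam a)
      (pow_le_pow_of_le_one (by norm_num) (by norm_num) haa₀)
    have h2 : u ≤ min c₀ (1 / 2) / (2 * (C + 8)) := le_trans h1 ha₀.le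
    rw [le_div_iff₀ (by positivity)] at h2
    linarith
  have hus1 : 2 * u * (C + 8) ≤ c₀ := le_trans husmall (min_le_left _ _)
  have hus2 : 2 * u * (C + 8) ≤ 1 / 2 := le_trans husmall (min_le_right _ _)
  obtain ⟨hT3a, hT3b⟩ := hT3 κ β Q Φ hQQ₁ hTM k a τ hak hDeep him0 him2
  have hLCT : LC (2 * C) (TW Φ Q k) := (hTw1 C Q Φ hC0.le hQ2 hTM.1 k).1
  set T : ℂ → ℂ := TW Φ Q k with hT
  set p : ℂ := pt Q k (τ / (Q : ℝ) ^ a) with hp
  have hQk0 : (0 : ℝ) < (Q : ℝ) ^ k := by positivity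
  obtain ⟨hφBU, hφ0, hφle, hφeq⟩ := hDsc
  set z : ℂ := exp (-(((((Q : ℝ) ^ k)⁻¹) / M : ℝ) : ℂ) +
    ((θ₀ + τ / (M * (Q : ℝ) ^ a) : ℝ) : ℂ) * I) with hz
  have hz' : z = exp (-(((((Q : ℝ) ^ k)⁻¹) / M : ℝ) : ℂ) +
    ((θ₀ + (τ / (Q : ℝ) ^ a) / M : ℝ) : ℂ) * I) := by
    rw [hz]
    congr 4
    rw [div_div, mul_comm]
  have hp' : p = -((((Q : ℝ) ^ k)⁻¹ : ℝ) : ℂ) + ((τ / (Q : ℝ) ^ a : ℝ) : ℂ) * I := by
    rw [hp]; rfl
  obtain ⟨hz1, hφz, hφd⟩ := disc_point hLCT M hM φ hφBU.1.1 hφeq θ₀ n hn (((Q : ℝ) ^ k)⁻¹)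
    (τ / (Q : ℝ) ^ a) (by positivity) z p hz' hp'
  -- the vector v = T p
  have hv : ‖T p - (u : ℂ) * w‖ ≤ C' / Q * u := by
    have := hT3a
    rw [← hw] at this
    exact_mod_cast this
  have hCQ : C' / Q ≤ 1 / (2 * C) := by
    rw [div_le_div_iff₀ hQ0 (by positivity)]
    linarith
  set e : ℂ := (T p - (u : ℂ) * w) / u with he
  have huC : (u : ℂ) ≠ 0 := by exact_mod_cast hu0.ne'
  have hve : T p = (u : ℂ) * (w + e) := by
    rw [he]; field_simp; ring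
  have hen : ‖e‖ ≤ 1 / (2 * C) := by
    rw [he, norm_div, Complex.norm_real, Real.norm_eq_abs, abs_of_pos hu0, div_le_iff₀ hu0]
    refine le_trans hv ?_
    exact mul_le_mul_of_nonneg_right hCQ hu0.le
  have hC21 : 1 / (2 * C) ≤ 1 / 2 := by
    rw [div_le_div_iff₀ (by positivity) (by norm_num)]; linarith
  have hwre := hDeep.2
  have hwre' := hDeep.1
  have here : |e.re| ≤ 1 / (2 * C) := le_trans (Complex.abs_re_le_norm e) hen
  rw [abs_le] at here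
  have hC2C : 1 / C = 1 / (2 * C) + 1 / (2 * C) := by field_simp; ring
  have hre1 : (w + e).re ≤ -(1 / (2 * C)) := by
    rw [add_re]; rw [hC2C] at hwre; linarith [here.2]
  have hwn : ‖w‖ ≤ C + 7 := by
    have h1 := Complex.norm_le_abs_re_add_abs_im w
    have h2 : |w.re| ≤ C := by
      rw [abs_le]
      refine ⟨hwre', ?_⟩
      have : 0 < 1 / C := by positivity
      linarith
    have h3 : |w.im| ≤ 7 := by
      rw [abs_le]
      have := Real.pi_lt_d2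
      constructor
      · linarith
      · linarith
    linarith
  have hwe : ‖w + e‖ ≤ C + 8 := by
    have := norm_add_le w e
    linarith
  -- the point x
  set x : ℂ := φ z with hx
  have hTpM : ‖T p / M‖ ≤ u * (C + 8) := by
    rw [norm_div, hve, norm_mul, Complex.norm_real, Real.norm_eq_abs, abs_of_pos hu0,
      Complex.norm_natCast]
    rw [div_le_iff₀ hM0]
    have h1 : u * ‖w + e‖ ≤ u * (C + 8) := mul_le_mul_of_nonneg_left hwe hu0.le
    have h2 : 0 ≤ u * (C + 8) := by positivity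
    exact le_trans h1 (le_mul_of_one_le_right h2 hM1)
  have hxθ : ‖x - exp (θ₀ * I)‖ ≤ 2 * u * (C + 8) := by
    have h1 : x - exp (θ₀ * I) = exp (θ₀ * I) * (exp (T p / M) - 1) := by
      rw [hφz]; ring
    rw [h1, norm_mul, Complex.norm_exp_ofReal_mul_I, one_mul]
    have h2 : ‖T p / M‖ ≤ 1 := by linarith
    refine le_trans (Complex.norm_exp_sub_one_le h2) ?_
    linarith
  have hxn : ‖x‖ = Real.exp (u * (w + e).re / M) := by
    rw [hφz, norm_mul, Complex.norm_exp_ofReal_mul_I, one_mul, Complex.norm_exp]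
    congr 1
    rw [hve]
    have h1 : ((u : ℂ) * (w + e) / M).re = u * (w + e).re / M := by
      rw [show (u : ℂ) * (w + e) / M = ((u / M : ℝ) : ℂ) * (w + e) by push_cast; ring,
        Complex.re_ofReal_mul]
      ring
    exact h1
  have hxge : 1 / 2 ≤ ‖x‖ := by
    have h1 : ‖exp (θ₀ * I)‖ ≤ ‖x‖ + ‖x - exp (θ₀ * I)‖ := by
      have := norm_sub_norm_le (exp (θ₀ * I)) x
      rw [norm_sub_rev] at this
      linarith
    rw [Complex.norm_exp_ofReal_mul_I] at h1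
    linarith
  set y₀ : ℝ := u / (2 * C * M) with hy₀
  have hy₀0 : 0 ≤ y₀ := by positivity
  have hy₀1 : y₀ ≤ 1 := by
    rw [hy₀, div_le_one (by positivity)]
    have g1 : (1 : ℝ) ≤ 2 * C := by linarith only [hC]
    have g2 : (1 : ℝ) ≤ 2 * C * M := le_trans g1 (le_mul_of_one_le_right (by positivity) hM1)
    exact le_trans hu1 g2
  have hxle : ‖x‖ ≤ Real.exp (-y₀) := by
    rw [hxn]
    apply Real.exp_le_exp.2
    rw [hy₀]
    have h1 : u * (w + e).re ≤ u * (-(1 / (2 * C))) := mul_le_mul_of_nonneg_left hre1 hu0.le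
    have h2 : -(u / (2 * C * M)) = u * (-(1 / (2 * C))) / M := by field_simp
    rw [h2]
    exact div_le_div_of_nonneg_right h1 hM0.le
  have hx1 : u / (4 * C * M) ≤ 1 - ‖x‖ := by
    have h1 := one_sub_exp y₀ hy₀0 hy₀1
    have h2 : y₀ / 2 = u / (4 * C * M) := by rw [hy₀]; field_simp; ring
    rw [h2] at h1
    linarith
  have hxlt : ‖x‖ < 1 := by
    have : 0 < u / (4 * C * M) := by positivity
    linarith
  have hxball : x ∈ ball (0 : ℂ) 1 := by simpa using hxlt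
  obtain ⟨hhx, hh'x⟩ := hnear x hxball (le_trans hxθ hus1)
  have hSPx := hSP x hxball
  -- comparison of derivatives of K
  have hξu : ‖((1 - u : ℝ) : ℂ) * ξ₀‖ = 1 - u := by
    rw [norm_mul, hξ, mul_one, Complex.norm_real, Real.norm_eq_abs, abs_of_nonneg (by linarith)]
  have hcmp1 : ‖deriv K (((1 - u : ℝ) : ℂ) * ξ₀)‖ ≤ C₂ * ‖deriv K (h x)‖ := by
    refine hHyp' K ξ₀ (h x) (((1 - u : ℝ) : ℂ) * ξ₀) u hK hu0 ?_ ?_ ?_ ?_
    · have h1 : C₀ * ‖x - exp (θ₀ * I)‖ ≤ C₀ * (2 * u * (C + 8)) :=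
        mul_le_mul_of_nonneg_left hxθ hC₀.le
      have h2 : 2 * C₀ * (C + 8) * u ≤ Ch * u :=
        mul_le_mul_of_nonneg_right (le_max_left _ _) hu0.le
      calc ‖h x - ξ₀‖ ≤ C₀ * ‖x - exp (θ₀ * I)‖ := hhx
        _ ≤ C₀ * (2 * u * (C + 8)) := h1
        _ = 2 * C₀ * (C + 8) * u := by ring
        _ ≤ Ch * u := h2
    · have h1 : ((1 - u : ℝ) : ℂ) * ξ₀ - ξ₀ = ((-u : ℝ) : ℂ) * ξ₀ := by push_cast; ring
      rw [h1, norm_mul, hξ, mul_one, Complex.norm_real, Real.norm_eq_abs, abs_neg,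
        abs_of_pos hu0]
      have h2 : 1 * u ≤ Ch * u := mul_le_mul_of_nonneg_right (le_max_right _ _) hu0.le
      linarith
    · have h1 : c₀ * (u / (4 * C * M)) ≤ c₀ * (1 - ‖x‖) := mul_le_mul_of_nonneg_left hx1 hc₀.le
      have h2 : ch * u ≤ c₀ / (4 * C * M) * u :=
        mul_le_mul_of_nonneg_right (min_le_left _ _) hu0.le
      have h3 : c₀ / (4 * C * M) * u = c₀ * (u / (4 * C * M)) := by ring
      linarith
    · rw [hξu]
      have h2 : ch * u ≤ 1 * u := mul_le_mul_of_nonneg_right (min_le_right _ _) hu0.le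
      linarith
  -- the number t
  set t : ℝ := ((Q : ℝ) ^ k) ^ (-s) with ht
  have htQ : t = (Q : ℝ) ^ (-(s * k)) := by
    rw [ht, ← Real.rpow_natCast, ← Real.rpow_mul hQ0.le]
    congr 1; ring
  have ht0 : 0 < t := by rw [htQ]; exact Real.rpow_pos_of_pos hQ0 _
  have ht1 : t < 1 := by
    rw [htQ]
    apply Real.rpow_lt_one_of_one_lt_of_neg (by linarith)
    have : 0 < s * k := by positivity
    linarith
  have hQat : (Q : ℝ) ^ a * t ≤ 1 := by
    rw [htQ, ← Real.rpow_natCast, ← Real.rpow_add hQ0]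
    apply Real.rpow_le_one_of_one_le_of_nonpos hQ1
    linarith
  have hut : u ≤ κ ^ a * Q * t := by
    have h1 : ((Q : ℝ) ^ a)⁻¹ ≤ Q * t := by
      have h2 : ((Q : ℝ) ^ a)⁻¹ = (Q : ℝ) ^ (-(a : ℝ)) := by
        rw [Real.rpow_neg hQ0.le, Real.rpow_natCast]
      have h3 : (Q : ℝ) * t = (Q : ℝ) ^ (1 + -(s * k)) := by
        rw [Real.rpow_add hQ0, Real.rpow_one, htQ]
      rw [h2, h3]
      apply Real.rpow_le_rpow_of_exponent_le hQ1
      linarith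
    have h4 : u = κ ^ a * ((Q : ℝ) ^ a)⁻¹ := by
      rw [hu, div_pow]; rfl
    rw [h4, mul_assoc]
    exact mul_le_mul_of_nonneg_left h1 (by positivity)
  have htu : t ≤ u := by
    have h4 : u = κ ^ a * ((Q : ℝ) ^ a)⁻¹ := by
      rw [hu, div_pow]; rfl
    have h5 : t ≤ ((Q : ℝ) ^ a)⁻¹ := by
      rw [← one_div, le_div_iff₀ (by positivity)]
      linarith
    have h6 : 1 ≤ κ ^ a := one_le_pow₀ hκ1
    have h7 : 0 < ((Q : ℝ) ^ a)⁻¹ := by positivity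
    rw [h4]
    exact le_trans h5 (le_mul_of_one_le_left h7.le h6)
  have hκaC : κ ^ a ≤ C ^ k :=
    le_trans (pow_le_pow_left₀ hκ0.le hκC a) (pow_le_pow_right₀ hC hak)
  have hξt : ‖((1 - t : ℝ) : ℂ) * ξ₀‖ = 1 - t := by
    rw [norm_mul, hξ, mul_one, Complex.norm_real, Real.norm_eq_abs, abs_of_nonneg (by linarith)]
  have hcmp2 : ‖deriv K (((1 - t : ℝ) : ℂ) * ξ₀)‖ ≤
      (C ^ k * Q) ^ 4 * ‖deriv K (((1 - u : ℝ) : ℂ) * ξ₀)‖ := by
    have h1 := (hD2 K 1 (((1 - t : ℝ) : ℂ) * ξ₀) ((1 - u) / (1 - t)) one_pos hK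
      (by rw [hξt]; linarith) (div_nonneg (by linarith) (by linarith))
      (by rw [div_le_one (by linarith)]; linarith)).2
    have h2 : (((1 - u) / (1 - t) : ℝ) : ℂ) * (((1 - t : ℝ) : ℂ) * ξ₀) =
        ((1 - u : ℝ) : ℂ) * ξ₀ := by
      rw [← mul_assoc, ← Complex.ofReal_mul, div_mul_cancel₀ _ (by linarith : (1 - t) ≠ 0)]
    rw [h2, hξt, div_mul_cancel₀ _ (by linarith : (1 - t) ≠ 0)] at h1
    have h3 : (1 : ℝ) - (1 - t) = t := by ring
    have h4 : (1 : ℝ) - (1 - u) = u := by ring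
    rw [h3, h4] at h1
    have h5 : u ≤ C ^ k * Q * t := le_trans hut (by
      have : κ ^ a * Q ≤ C ^ k * Q := mul_le_mul_of_nonneg_right hκaC hQ0.le
      exact mul_le_mul_of_nonneg_right this ht0.le)
    have h6 : u ^ 4 ≤ (C ^ k * Q) ^ 4 * t ^ 4 := by
      rw [← mul_pow]
      exact pow_le_pow_left₀ hu0.le h5 4
    have h7 : t ^ 4 * ‖deriv K (((1 - t : ℝ) : ℂ) * ξ₀)‖ ≤
        t ^ 4 * ((C ^ k * Q) ^ 4 * ‖deriv K (((1 - u : ℝ) : ℂ) * ξ₀)‖) := by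
      refine le_trans h1 ?_
      calc u ^ 4 * ‖deriv K (((1 - u : ℝ) : ℂ) * ξ₀)‖
          ≤ ((C ^ k * Q) ^ 4 * t ^ 4) * ‖deriv K (((1 - u : ℝ) : ℂ) * ξ₀)‖ :=
            mul_le_mul_of_nonneg_right h6 (norm_nonneg _)
        _ = t ^ 4 * ((C ^ k * Q) ^ 4 * ‖deriv K (((1 - u : ℝ) : ℂ) * ξ₀)‖) := by ring
    exact le_of_mul_le_mul_left h7 (by positivity)
  -- derivative of φ
  have hφ' : κ ^ a * ‖deriv (TW Φ Q (k - a)) (pt Q (k - a) τ)‖ ≤ 4 * ‖deriv φ z‖ := by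
    have h1 : ‖x‖ * ‖deriv T p‖ = ‖deriv φ z‖ * ‖z‖ := by
      rw [← norm_mul, ← norm_mul, hφd]
    have h2 : ‖deriv φ z‖ * ‖z‖ ≤ ‖deriv φ z‖ := mul_le_of_le_one_right (norm_nonneg _) hz1.le
    have h3 : 1 / 2 * ‖deriv T p‖ ≤ ‖x‖ * ‖deriv T p‖ :=
      mul_le_mul_of_nonneg_right hxge (norm_nonneg _)
    linarith
  -- chain rule
  have hzball : z ∈ ball (0 : ℂ) 1 := by simpa using hz1
  have hhball : h x ∈ ball (0 : ℂ) 1 := by
    have h1 : 0 < c₀ * (1 - ‖x‖) := mul_pos hc₀ (by linarith)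
    have h2 : ‖h x‖ < 1 := by linarith
    simpa using h2
  have hchain : deriv (fun z => K (h (φ z))) z = deriv K (h x) * (deriv h x * deriv φ z) := by
    have d1 : HasDerivAt φ (deriv φ z) z :=
      (hφBU.1.1.differentiableAt (isOpen_ball.mem_nhds hzball)).hasDerivAt
    have d2 : HasDerivAt h (deriv h x) x :=
      (hBU.1.1.differentiableAt (isOpen_ball.mem_nhds hxball)).hasDerivAt
    have d3 : HasDerivAt K (deriv K (h x)) (h x) :=
      (hK.1.differentiableAt (isOpen_ball.mem_nhds hhball)).hasDerivAt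
    exact (d3.comp z (d2.comp z d1)).deriv
  rw [hchain, norm_mul, norm_mul]
  set X : ℝ := ‖deriv K (((1 - t : ℝ) : ℂ) * ξ₀)‖ with hX
  set Y : ℝ := ‖deriv (TW Φ Q (k - a)) (pt Q (k - a) τ)‖ with hY
  have hX0 : 0 ≤ X := norm_nonneg _
  have hY0 : 0 ≤ Y := norm_nonneg _
  have hCk : 0 < C ^ k := by positivity
  -- lower bounds
  have hb1 : X / ((C ^ k * Q) ^ 4 * C₂) ≤ ‖deriv K (h x)‖ := by
    rw [div_le_iff₀ (by positivity)]
    calc X ≤ (C ^ k * Q) ^ 4 * ‖deriv K (((1 - u : ℝ) : ℂ) * ξ₀)‖ := hcmp2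
      _ ≤ (C ^ k * Q) ^ 4 * (C₂ * ‖deriv K (h x)‖) :=
        mul_le_mul_of_nonneg_left hcmp1 (by positivity)
      _ = ‖deriv K (h x)‖ * ((C ^ k * Q) ^ 4 * C₂) := by ring
  have hb2 : Y / 4 ≤ ‖deriv φ z‖ := by
    have h1 : 1 * Y ≤ κ ^ a * Y := mul_le_mul_of_nonneg_right (one_le_pow₀ hκ1) hY0
    linarith
  have hb3 : c₀ * (Y / 4) ≤ ‖deriv h x‖ * ‖deriv φ z‖ :=
    mul_le_mul hh'x hb2 (by positivity) (norm_nonneg _)
  have hb4 : X / ((C ^ k * Q) ^ 4 * C₂) * (c₀ * (Y / 4)) ≤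
      ‖deriv K (h x)‖ * (‖deriv h x‖ * ‖deriv φ z‖) :=
    mul_le_mul hb1 hb3 (by positivity) (norm_nonneg _)
  refine le_trans ?_ hb4
  have hrw : c₀ / (4 * C₂ * (Q : ℝ) ^ 4) * ((C ^ k) ^ 4)⁻¹ * (Q : ℝ) ^ a * (X * t) * Y =
      (X / ((C ^ k * Q) ^ 4 * C₂) * (c₀ * (Y / 4))) * ((Q : ℝ) ^ a * t) := by
    field_simp
  rw [hrw]
  exact mul_le_of_le_one_right (by positivity) hQat

end Pool.Agent.Helper14.SR
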